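import Pool.Agent.helper90.KS.Spec

/-!
# MP_26dbae_co: module NL (basic counts in an abstract pair graph)
-/

set_option autoImplicit false

open scoped BigOperators

namespace Pool.Agent.KS

open Pool.Agent.helper23.TH

noncomputable section

open Classical

theorem NL_common {V : Type} [Fintype V] (A : V → V → Prop) (C : ℕ) (v u : V)
    (h : Lg A C v u) : ∃ m, A v m ∧ A u m := by
  have h1 : 1 ≤ cd A v u := h.2.1
  have h2 : 0 < (Finset.univ.filter fun m => A v m ∧ A u m).card := h1
  obtain ⟨m, hm⟩ := Finset.card_pos.1 h2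
  exact ⟨m, (Finset.mem_filter.1 hm).2⟩

/-- a set of light partners of `v` on which every common neighbour of `v` has at most one
neighbour is not larger than `N(v)` -/
theorem NL_inj {V X : Type} [Fintype V] (A : V → V → Prop) (p q : V → X) (Δ C : ℕ)
    (hPG : PG A p q) (hdeg : ∀ v, deg A v ≤ Δ) (v : V) (P : V → Prop)
    (hP : ∀ m u u', A m u → A m u' → P u → P u' → u = u') :
    (Finset.univ.filter fun u => Lg A C v u ∧ P u).card ≤ Δ := by
  have hch : ∀ u, ∃ m, (Lg A C v u → A v m ∧ A u m) := by
    intro u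
    by_cases h : Lg A C v u
    · obtain ⟨m, hm⟩ := NL_common A C v u h
      exact ⟨m, fun _ => hm⟩
    · exact ⟨v, fun h' => absurd h' h⟩
  choose f hf using hch
  refine le_trans ?_ (hdeg v)
  unfold deg
  refine Finset.card_le_card_of_injOn f ?_ ?_
  · intro u hu
    have h1 := (Finset.mem_filter.1 (Finset.mem_coe.1 hu)).2
    exact Finset.mem_coe.2 (Finset.mem_filter.2 ⟨Finset.mem_univ _, (hf u h1.1).1⟩)
  · intro u hu u' hu' he
    have h1 := (Finset.mem_filter.1 (Finset.mem_coe.1 hu)).2
    have h2 := (Finset.mem_filter.1 (Finset.mem_coe.1 hu')).2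
    have a1 : A (f u) u := hPG.symm _ _ (hf u h1.1).2
    have a2 : A (f u') u' := hPG.symm _ _ (hf u' h2.1).2
    have he' : f u = f u' := he
    rw [← he'] at a2
    exact hP _ _ _ a1 a2 h1.2 h2.2

theorem NL : NL_stmt := by
  intro V X _ A p q Δ C hPG hdeg
  have h7 : ∀ m u u', A m u → A m u' → u ≠ u' → ¬ Co p q u u' := by
    intro m u u' h1 h2 hne hco
    rcases hco with h | h
    · exact hne (hPG.inj1 m u u' h1 h2 h)
    · exact hne (hPG.inj2 m u u' h1 h2 h)
  have h2 : ∀ v x, (Finset.univ.filter fun u => Lg A C v u ∧ p u = x).card ≤ Δ := by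
    intro v x
    refine NL_inj A p q Δ C hPG hdeg v (fun u => p u = x) ?_
    intro m u u' a1 a2 e1 e2
    exact hPG.inj1 m u u' a1 a2 (e1.trans e2.symm)
  have h3 : ∀ v x, (Finset.univ.filter fun u => Lg A C v u ∧ q u = x).card ≤ Δ := by
    intro v x
    refine NL_inj A p q Δ C hPG hdeg v (fun u => q u = x) ?_
    intro m u u' a1 a2 e1 e2
    exact hPG.inj2 m u u' a1 a2 (e1.trans e2.symm)
  refine ⟨?_, h2, h3, ?_, ?_, ?_, h7⟩
  · intro w x
    have hsub : (Finset.univ.filter fun m => A w m ∧ Co p q m x) ⊆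
        (Finset.univ.filter fun m => A w m ∧ p m = p x) ∪
          (Finset.univ.filter fun m => A w m ∧ q m = q x) := by
      intro m hm
      have hm' := (Finset.mem_filter.1 hm).2
      rcases hm'.2 with h | h
      · exact Finset.mem_union_left _ (Finset.mem_filter.2 ⟨Finset.mem_univ _, hm'.1, h⟩)
      · exact Finset.mem_union_right _ (Finset.mem_filter.2 ⟨Finset.mem_univ _, hm'.1, h⟩)
    have c1 : (Finset.univ.filter fun m => A w m ∧ p m = p x).card ≤ 1 := by
      refine Finset.card_le_one.2 ?_
      intro a ha b hb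
      have ha' := (Finset.mem_filter.1 ha).2
      have hb' := (Finset.mem_filter.1 hb).2
      exact hPG.inj1 w a b ha'.1 hb'.1 (ha'.2.trans hb'.2.symm)
    have c2 : (Finset.univ.filter fun m => A w m ∧ q m = q x).card ≤ 1 := by
      refine Finset.card_le_one.2 ?_
      intro a ha b hb
      have ha' := (Finset.mem_filter.1 ha).2
      have hb' := (Finset.mem_filter.1 hb).2
      exact hPG.inj2 w a b ha'.1 hb'.1 (ha'.2.trans hb'.2.symm)
    have c3 := (Finset.card_le_card hsub).trans (Finset.card_union_le _ _)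
    omega
  · intro v w
    have hsub : (Finset.univ.filter fun u => Lg A C v u ∧ Co p q u w) ⊆
        (Finset.univ.filter fun u => Lg A C v u ∧ p u = p w) ∪
          (Finset.univ.filter fun u => Lg A C v u ∧ q u = q w) := by
      intro m hm
      have hm' := (Finset.mem_filter.1 hm).2
      rcases hm'.2 with h | h
      · exact Finset.mem_union_left _ (Finset.mem_filter.2 ⟨Finset.mem_univ _, hm'.1, h⟩)
      · exact Finset.mem_union_right _ (Finset.mem_filter.2 ⟨Finset.mem_univ _, hm'.1, h⟩)
    have c1 := h2 v (p w)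
    have c2 := h3 v (q w)
    have c3 := (Finset.card_le_card hsub).trans (Finset.card_union_le _ _)
    omega
  · intro v
    have hsub : Ls A C v ⊆ (Finset.univ.filter fun m => A v m).biUnion
        (fun m => Finset.univ.filter fun u => A m u) := by
      intro u hu
      have hu' : Lg A C v u := (Finset.mem_filter.1 hu).2
      obtain ⟨m, hm1, hm2⟩ := NL_common A C v u hu'
      refine Finset.mem_biUnion.2 ⟨m, Finset.mem_filter.2 ⟨Finset.mem_univ _, hm1⟩, ?_⟩
      exact Finset.mem_filter.2 ⟨Finset.mem_univ _, hPG.symm _ _ hm2⟩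
    have c1 : ((Finset.univ.filter fun m => A v m).biUnion
        (fun m => Finset.univ.filter fun u => A m u)).card ≤
        (Finset.univ.filter fun m => A v m).card * Δ := by
      refine Finset.card_biUnion_le_card_mul _ _ _ ?_
      intro m _
      exact hdeg m
    have c2 : (Finset.univ.filter fun m => A v m).card ≤ Δ := hdeg v
    calc (Ls A C v).card ≤ _ := Finset.card_le_card hsub
      _ ≤ _ := c1
      _ ≤ Δ * Δ := Nat.mul_le_mul_right _ c2
      _ = Δ ^ 2 := (sq Δ).symm
  · intro v u h
    have hcd : cd A u v = cd A v u := by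
      unfold cd
      congr 1
      exact Finset.filter_congr fun m _ => and_comm
    refine ⟨⟨fun e => h.1 e.symm, by rw [hcd]; exact h.2.1, by rw [hcd]; exact h.2.2⟩, ?_⟩
    obtain ⟨m, hm1, hm2⟩ := NL_common A C v u h
    exact h7 m v u (hPG.symm _ _ hm1) (hPG.symm _ _ hm2) h.1

end

end Pool.Agent.KS
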